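import Pool.Agent.OG45.Neg

/-!
# MP_82c070_gt, Q1: a set of reals with `S₁(Ω, 𝒪^{ωgp})` but not `S₁(Ω, Ω)` is consistent with ZFC

There is a model `(M, E)` of ZFC which satisfies: some set of reals `X` satisfies
`S₁(Ω, 𝒪^{ωgp})` but not `S₁(Ω, Ω)`.

* `ZFC E` (file `Pool/Agent/BVM/Fml.lean`): `(M, E)` is a model of ZFC.
* `Omega` (file `Pool/Agent/BVM/Notions.lean`): `w` is `ω`.
* `IsReals` (file `Pool/Agent/MAx/Defs.lean`): `K` is the field of real numbers.
* `SOne`, `OmegaCover`, `Groupable` (file `Pool/Agent/OG45/Defs.lean`): the selection principle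
  and the classes `Ω` and `𝒪^{ωgp}` of covers of `X`, relativized to `(M, E)`.

The model is a quotient, by an ultrafilter, of the Boolean-valued universe over the regular open
algebra of a `σ`-closed poset.  A condition is a countable set `A` of reals which contains the
rationals, with countably many promises `(V, C)`: here `V` is a sequence of open sets, such that
for all `w` in `[0, 1]` the set of all `y` with `y, w - y ∈ V k` is `1 / (k + 1)`-dense in
`[-k, k]`, and each finite subset of `A ∖ C` is contained in infinitely many `V k`.  The set `X` is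
the union of the sets `A` of the conditions in the generic filter.  No assumption beyond ZFC (such
as the continuum hypothesis) is used.
-/

namespace Pool.Agent.Results.MP_82c070_gt.ConsistentCounterexample

open Pool.Agent.BVM Pool.Agent.MAx Pool.Agent.OG45

/-- **Main theorem.**  There is a model `(M, E)` of ZFC, with `w = ω` and `K` the field of real
numbers of the model, in which there is a set of reals `X` which satisfies `S₁(Ω, 𝒪^{ωgp})` but
does not satisfy `S₁(Ω, Ω)`. -/
theorem result : ∃ (M : Type 1) (E : M → M → Prop), ZFC E ∧
    ∃ (w : M) (K : OF M) (X : M), Omega E w ∧ IsReals E K ∧ Sub E X K.R ∧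
      SOne E w (OmegaCover E w K X) (Groupable E w K X) ∧
      ¬ SOne E w (OmegaCover E w K X) (OmegaCover E w K X) := by
  obtain ⟨F, -⟩ := exists_gg cond0
  exact ⟨Md F, In F, zfc F.1, nm F (onT ℕ), nmK F (KR _), nm F XN, omega_onT F.1,
    isReals sigma_cond F, fun _ h => sN_sub h, sOne_pos F, sOne_neg F⟩

end Pool.Agent.Results.MP_82c070_gt.ConsistentCounterexample
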