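import Mathlib
import Pool.Agent.H43.Omega2

set_option autoImplicit false

namespace Pool.Agent.Results.MP_82c070_gt.NotEquivalent

open Set MeasureTheory

section definitions

variable {Z : Type} [TopologicalSpace Z]

/-- `𝒪`: an open cover is a family of open sets whose union is the whole space. -/
def IsOpenCover (𝒰 : Set (Set Z)) : Prop := (∀ U ∈ 𝒰, IsOpen U) ∧ ⋃₀ 𝒰 = univ

/-- `Ω`: an open `ω`-cover is an open cover which does not contain the whole space and such that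
every finite set is contained in one of its members. -/
def IsOmegaCover (𝒰 : Set (Set Z)) : Prop :=
  IsOpenCover 𝒰 ∧ univ ∉ 𝒰 ∧ ∀ F : Set Z, F.Finite → ∃ U ∈ 𝒰, F ⊆ U

/-- A sequence of open sets is an `ω`-cover if every finite set is contained in one of them. -/
def IsOmegaSequence (V : ℕ → Set Z) : Prop :=
  (∀ n, IsOpen (V n)) ∧ ∀ F : Set Z, F.Finite → ∃ n, F ⊆ V n

/-- `𝒪^{ωgp}`: an open cover is `ω`-groupable if it can be partitioned into pairwise disjoint
finite sets whose unions form an `ω`-cover. -/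
def IsOmegaGroupable (𝒰 : Set (Set Z)) : Prop :=
  IsOpenCover 𝒰 ∧ ∃ F : ℕ → Set (Set Z), (∀ n, (F n).Finite) ∧
    (∀ m n, m ≠ n → Disjoint (F m) (F n)) ∧ (⋃ n, F n) = 𝒰 ∧ IsOmegaSequence fun n => ⋃₀ F n

end definitions

/-- The set of reals `X` satisfies `S₁(𝔄, 𝔅)`: from every sequence of members of `𝔄` one can
choose one element of each so that the chosen elements form a member of `𝔅`. -/
def SOne (X : Set ℝ) (𝔄 𝔅 : Set (Set X) → Prop) : Prop :=
  ∀ 𝒰 : ℕ → Set (Set X), (∀ n, 𝔄 (𝒰 n)) → ∃ U : ℕ → Set X, (∀ n, U n ∈ 𝒰 n) ∧ 𝔅 (Set.range U)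

open Pool.Agent.H43.Omega

/-- The range of a sequence of open sets with the `ω` property is `ω`-groupable. -/
theorem groupable_singletons {X : Set ℝ} {U : ℕ → Set X} (ho : ∀ n, IsOpen (U n))
    (h : Om (Set.range U)) : IsOmegaGroupable (Set.range U) := by
  refine ⟨⟨?_, ?_⟩, fun n => {V | V = U n ∧ ∀ m < n, V ≠ U m}, fun n => ?_, fun m n hmn => ?_, ?_,
    fun n => ?_, fun F hF => ?_⟩
  · rintro _ ⟨n, rfl⟩; exact ho n
  · rw [Set.eq_univ_iff_forall]
    intro p
    obtain ⟨V, hV, hpV⟩ := h {p} (Set.finite_singleton p)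
    exact ⟨V, hV, hpV rfl⟩
  · exact (Set.finite_singleton (U n)).subset fun V hV => hV.1
  · rw [Set.disjoint_left]
    rintro V ⟨h1, h2⟩ ⟨h3, h4⟩
    rcases lt_or_gt_of_ne hmn with h | h
    · exact h4 m h h1
    · exact h2 n h h3
  · ext V
    simp only [Set.mem_iUnion, Set.mem_ofPred_eq, Set.mem_range]
    constructor
    · rintro ⟨n, h1, -⟩; exact ⟨n, h1.symm⟩
    · rintro ⟨n, rfl⟩
      classical
      have hex : ∃ m, U m = U n := ⟨n, rfl⟩
      refine ⟨Nat.find hex, (Nat.find_spec hex).symm, fun m hm => ?_⟩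
      exact fun h => Nat.find_min hex hm h.symm
  · apply isOpen_sUnion
    rintro V ⟨rfl, -⟩
    exact ho n
  · obtain ⟨V, ⟨n, rfl⟩, hFV⟩ := h F hF
    classical
    have hex : ∃ m, U m = U n := ⟨n, rfl⟩
    refine ⟨Nat.find hex, hFV.trans ?_⟩
    refine Set.subset_sUnion_of_mem ⟨(Nat.find_spec hex).symm, fun m hm h => ?_⟩
    exact Nat.find_min hex hm h.symm

/-- The negative half: if `X + X` contains the unit interval, then `X` does not satisfy
`S₁(Ω, Ω)`. -/
theorem not_SOne {X : Set ℝ} (hX : ∀ r ∈ Set.Icc (0 : ℝ) 1, ∃ a ∈ X, ∃ b ∈ X, a + b = r) :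
    ¬ SOne X IsOmegaCover IsOmegaCover := by
  intro hS
  obtain ⟨ε, hε, hsum⟩ := ENNReal.exists_pos_sum_of_countable' (one_ne_zero (α := ENNReal)) ℕ
  let sum (O : Set ℝ) : Set ℝ := {r | ∃ a ∈ O, ∃ b ∈ O, a + b = r}
  have hlt : ∀ n, ε n < 1 := fun n => (ENNReal.le_tsum n).trans_lt hsum
  let 𝒰 : ℕ → Set (Set X) := fun n =>
    {U | ∃ O : Set ℝ, IsOpen O ∧ U = Subtype.val ⁻¹' O ∧ volume (sum O) < ε n}
  have hfin : ∀ n, Om (𝒰 n) := by
    intro n F hF
    obtain ⟨δ, hδ0, hδ⟩ : ∃ δ : ℝ, 0 < δ ∧ ENNReal.ofReal δ < ε n := by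
      refine ⟨(ε n).toReal / 2, ?_, ?_⟩
      · have : 0 < (ε n).toReal := ENNReal.toReal_pos (hε n).ne' ((hlt n).trans_le le_top).ne
        linarith
      · have h1 : 0 < (ε n).toReal := ENNReal.toReal_pos (hε n).ne' ((hlt n).trans_le le_top).ne
        rw [ENNReal.ofReal_lt_iff_lt_toReal (by linarith) ((hlt n).trans_le le_top).ne]
        linarith
    lift F to Finset X using hF
    set N : ℝ := ((F.card : ℝ) ^ 2) + 1 with hN
    have hN0 : 0 < N := by positivity
    set r : ℝ := δ / (4 * N) with hr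
    have hr0 : 0 < r := by positivity
    refine ⟨Subtype.val ⁻¹' (⋃ p ∈ F, Metric.ball (p : ℝ) r), ⟨_, isOpen_biUnion fun _ _ =>
      Metric.isOpen_ball, rfl, ?_⟩, ?_⟩
    · have hsub : sum (⋃ p ∈ F, Metric.ball (p : ℝ) r) ⊆
          ⋃ q ∈ F ×ˢ F, Metric.ball ((q.1 : ℝ) + q.2) (2 * r) := by
        rintro _ ⟨a, ha, b, hb, rfl⟩
        simp only [Set.mem_iUnion, exists_prop] at ha hb
        obtain ⟨p, hp, hap⟩ := ha
        obtain ⟨q, hq, hbq⟩ := hb
        simp only [Set.mem_iUnion, exists_prop]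
        refine ⟨(p, q), Finset.mem_product.2 ⟨hp, hq⟩, ?_⟩
        rw [Metric.mem_ball, Real.dist_eq] at *
        calc |a + b - ((p : ℝ) + q)| = |(a - p) + (b - q)| := by ring_nf
          _ ≤ |a - p| + |b - q| := abs_add_le _ _
          _ < 2 * r := by linarith
      calc volume (sum (⋃ p ∈ F, Metric.ball (p : ℝ) r))
          ≤ volume (⋃ q ∈ F ×ˢ F, Metric.ball ((q.1 : ℝ) + q.2) (2 * r)) := measure_mono hsub
        _ ≤ ∑ q ∈ F ×ˢ F, volume (Metric.ball ((q.1 : ℝ) + q.2) (2 * r)) :=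
            measure_biUnion_finset_le _ _
        _ = ∑ q ∈ F ×ˢ F, ENNReal.ofReal (4 * r) := by
            apply Finset.sum_congr rfl; intro q _
            rw [Real.volume_ball]; congr 1; ring
        _ = ENNReal.ofReal ((F.card : ℝ) ^ 2 * (4 * r)) := by
            rw [Finset.sum_const, Finset.card_product, nsmul_eq_mul,
              ENNReal.ofReal_mul (q := 4 * r) (by positivity : (0 : ℝ) ≤ (F.card : ℝ) ^ 2),
              ← Nat.cast_pow, ENNReal.ofReal_natCast, sq]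
        _ ≤ ENNReal.ofReal δ := by
            apply ENNReal.ofReal_le_ofReal
            have h1 : 4 * r = δ / N := by rw [hr]; field_simp
            rw [h1, mul_div_assoc', div_le_iff₀ hN0]
            nlinarith [hδ0.le]
        _ < ε n := hδ
    · intro p hp
      simp only [Set.mem_preimage, Set.mem_iUnion, exists_prop]
      exact ⟨p, hp, Metric.mem_ball_self hr0⟩
  have hcov : ∀ n, IsOmegaCover (𝒰 n) := by
    intro n
    refine ⟨⟨?_, ?_⟩, ?_, hfin n⟩
    · rintro U ⟨O, hO, rfl, -⟩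
      exact hO.preimage continuous_subtype_val
    · rw [Set.eq_univ_iff_forall]
      intro p
      obtain ⟨V, hV, hpV⟩ := hfin n {p} (Set.finite_singleton p)
      exact ⟨V, hV, hpV rfl⟩
    · rintro ⟨O, hO, hU, hvol⟩
      have h1 : Set.Icc (0 : ℝ) 1 ⊆ sum O := by
        intro r hr
        obtain ⟨a, ha, b, hb, hab⟩ := hX r hr
        have hXO : ∀ p : X, (p : ℝ) ∈ O := fun p => by
          have : p ∈ (univ : Set X) := trivial
          rw [hU] at this
          exact this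
        exact ⟨a, hXO ⟨a, ha⟩, b, hXO ⟨b, hb⟩, hab⟩
      have h2 : (1 : ENNReal) ≤ volume (sum O) := by
        calc (1 : ENNReal) = volume (Set.Icc (0 : ℝ) 1) := by
              rw [Real.volume_Icc]; simp
          _ ≤ _ := measure_mono h1
      exact absurd (h2.trans_lt hvol) (not_lt.2 (hlt n).le)
  obtain ⟨U, hU, hcovU⟩ := hS 𝒰 hcov
  choose O hO hUO hvol using hU
  have h1 : Set.Icc (0 : ℝ) 1 ⊆ ⋃ n, sum (O n) := by
    intro r hr
    obtain ⟨a, ha, b, hb, hab⟩ := hX r hr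
    obtain ⟨V, ⟨n, rfl⟩, hV⟩ := hcovU.2.2 {⟨a, ha⟩, ⟨b, hb⟩} (Set.toFinite _)
    rw [Set.mem_iUnion]
    refine ⟨n, a, ?_, b, ?_, hab⟩
    · have : (⟨a, ha⟩ : X) ∈ U n := hV (by simp)
      rw [hUO n] at this
      exact this
    · have : (⟨b, hb⟩ : X) ∈ U n := hV (by simp)
      rw [hUO n] at this
      exact this
  have h2 : (1 : ENNReal) < 1 := by
    calc (1 : ENNReal) = volume (Set.Icc (0 : ℝ) 1) := by
          rw [Real.volume_Icc]; simp
      _ ≤ volume (⋃ n, sum (O n)) := measure_mono h1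
      _ ≤ ∑' n, volume (sum (O n)) := measure_iUnion_le _
      _ ≤ ∑' n, ε n := ENNReal.tsum_le_tsum fun n => (hvol n).le
      _ < 1 := hsum
  exact lt_irrefl _ h2

/-- The positive half. -/
theorem SOne_groupable {I : Type} [LinearOrder I] {z x : I → ℝ}
    (hcount : ∀ α : I, (Set.Iio α).Countable) (hz : ∀ α, z α ∈ Set.Icc (0 : ℝ) 1)
    (hx : ∀ V : ℕ → Set ℝ, (∀ k, IsOpen (V k)) → ∃ β : I, ∀ α, β < α → ∀ A : Finset I,
        (∀ γ ∈ A, γ < α) →
        (∀ N, Dense {y : ℝ | ∃ k, N ≤ k ∧ (∀ γ ∈ A, x γ ∈ V k ∧ z γ - x γ ∈ V k) ∧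
          y ∈ V k ∧ z α - y ∈ V k}) →
        ∀ N, ∃ k, N ≤ k ∧ (∀ γ ∈ A, x γ ∈ V k ∧ z γ - x γ ∈ V k) ∧
          x α ∈ V k ∧ z α - x α ∈ V k) {X : Set ℝ}
    (hXq : ∀ q : ℚ, (q : ℝ) ∈ X)
    (hX : ∀ p ∈ X, (∃ q : ℚ, (q : ℝ) = p) ∨ ∃ α, p = x α ∨ p = z α - x α) :
    SOne X IsOmegaCover IsOmegaGroupable := by
  classical
  intro 𝒰 h𝒰
  have hOm : ∀ n, Om (𝒰 n) := fun n => (h𝒰 n).2.2
  have hopen : ∀ n, ∀ U ∈ 𝒰 n, IsOpen U := fun n => (h𝒰 n).1.1
  have huniv : ∀ n, univ ∉ 𝒰 n := fun n => (h𝒰 n).2.1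
  -- phase 1
  obtain ⟨f, hf⟩ := exists_wf_seq (I := ℕ) (X := Set X × Set X)
    (fun k g p => (∀ j (hj : j < k), (g j hj).1 ≠ univ ∧ (g j hj).2 ≠ univ) →
      p.1 ∈ 𝒰 (3 * k) ∧ p.2 ∈ 𝒰 (3 * k + 1) ∧ p.1 ≠ p.2 ∧
      (∀ j (hj : j < k), p.1 ≠ (g j hj).1 ∧ p.1 ≠ (g j hj).2 ∧ p.2 ≠ (g j hj).1 ∧
        p.2 ≠ (g j hj).2) ∧
      ∀ w ∈ Set.Icc (0 : ℝ) 1, ∀ y₀ : ℝ, |y₀| ≤ k →
        ∃ y : ℝ, |y - y₀| < 1 / ((k : ℝ) + 1) ∧ y ∈ ext p.1 ∪ ext p.2 ∧
          w - y ∈ ext p.1 ∪ ext p.2) (by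
    intro k g
    by_cases hg : ∀ j (hj : j < k), (g j hj).1 ≠ univ ∧ (g j hj).2 ≠ univ
    · let 𝒬 : Set (Set X) := (⋃ j : Set.Iio k, {(g j.1 j.2).1, (g j.1 j.2).2})
      have h𝒬 : 𝒬.Finite := Set.finite_iUnion fun j => Set.toFinite _
      have hne : ∀ V ∈ 𝒬, V ≠ univ := by
        intro V hV
        obtain ⟨j, hj⟩ := Set.mem_iUnion.1 hV
        rcases hj with rfl | rfl
        · exact (hg j.1 j.2).1
        · exact (hg j.1 j.2).2
      obtain ⟨U, hU, V, hV, hU𝒬, hV𝒬, hUV, h⟩ := exists_pair hXq (hOm (3 * k)) (hOm (3 * k + 1))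
        (hopen _) (hopen _) (huniv _) h𝒬 hne k
      refine ⟨(U, V), fun _ => ⟨hU, hV, hUV, fun j hj => ⟨?_, ?_, ?_, ?_⟩, h⟩⟩
      · rintro rfl; exact hU𝒬 (Set.mem_iUnion.2 ⟨⟨j, hj⟩, Or.inl rfl⟩)
      · rintro rfl; exact hU𝒬 (Set.mem_iUnion.2 ⟨⟨j, hj⟩, Or.inr rfl⟩)
      · rintro rfl; exact hV𝒬 (Set.mem_iUnion.2 ⟨⟨j, hj⟩, Or.inl rfl⟩)
      · rintro rfl; exact hV𝒬 (Set.mem_iUnion.2 ⟨⟨j, hj⟩, Or.inr rfl⟩)
    · exact ⟨(∅, ∅), fun h => absurd h hg⟩)
  have hfne : ∀ k, (f k).1 ≠ univ ∧ (f k).2 ≠ univ := by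
    intro k
    induction k using Nat.strong_induction_on with
    | _ k ih =>
      obtain ⟨h1, h2, -⟩ := hf k fun j hj => ih j hj
      constructor
      · intro h; rw [h] at h1; exact huniv _ h1
      · intro h; rw [h] at h2; exact huniv _ h2
  replace hf := fun k => hf k fun j _ => hfne j
  set a : ℕ → Set X := fun k => (f k).1 with ha
  set b : ℕ → Set X := fun k => (f k).2 with hb
  have ha𝒰 : ∀ k, a k ∈ 𝒰 (3 * k) := fun k => (hf k).1
  have hb𝒰 : ∀ k, b k ∈ 𝒰 (3 * k + 1) := fun k => (hf k).2.1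
  have hab : ∀ j k, a j ≠ b k := by
    intro j k
    rcases lt_trichotomy j k with h | h | h
    · exact fun e => ((hf k).2.2.2.1 j h).2.2.1 e.symm
    · subst h; exact (hf j).2.2.1
    · exact ((hf j).2.2.2.1 k h).2.1
  have haa : ∀ j k, j ≠ k → a j ≠ a k := by
    intro j k hjk
    rcases lt_or_gt_of_ne hjk with h | h
    · exact fun e => ((hf k).2.2.2.1 j h).1 e.symm
    · exact ((hf j).2.2.2.1 k h).1
  have hbb : ∀ j k, j ≠ k → b j ≠ b k := by
    intro j k hjk
    rcases lt_or_gt_of_ne hjk with h | h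
    · exact fun e => ((hf k).2.2.2.1 j h).2.2.2 e.symm
    · exact ((hf j).2.2.2.1 k h).2.2.2
  let V : ℕ → Set ℝ := fun k => ext (a k) ∪ ext (b k)
  have hV : ∀ k, IsOpen (V k) := fun k => (isOpen_ext _).union (isOpen_ext _)
  have hVd : ∀ k : ℕ, ∀ w ∈ Set.Icc (0 : ℝ) 1, ∀ y₀ : ℝ, |y₀| ≤ k →
        ∃ y : ℝ, |y - y₀| < 1 / ((k : ℝ) + 1) ∧ y ∈ V k ∧ w - y ∈ V k :=
    fun k => (hf k).2.2.2.2
  obtain ⟨β, hβ⟩ := hx V hV
  -- points of high level
  have hhigh : ∀ A : Finset I, (∀ γ ∈ A, β < γ) →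
      ∀ N, ∃ k, N ≤ k ∧ ∀ γ ∈ A, x γ ∈ V k ∧ z γ - x γ ∈ V k := by
    intro A
    induction A using Finset.induction_on_max with
    | empty => intro _ N; exact ⟨N, le_rfl, by simp⟩
    | insert α A hmax ih =>
      intro hA N
      have ih' := ih fun γ hγ => hA γ (Finset.mem_insert_of_mem hγ)
      obtain ⟨k, hk, h1, h2⟩ := hβ α (hA α (Finset.mem_insert_self α A)) A hmax (by
        intro N'
        rw [Metric.dense_iff]
        intro y₀ r hr
        obtain ⟨M, hM⟩ := exists_nat_one_div_lt hr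
        obtain ⟨k, hk, hkA⟩ := ih' (max N' (max M ⌈|y₀|⌉₊))
        have hk1 : N' ≤ k := (le_max_left _ _).trans hk
        have hk2 : M ≤ k := ((le_max_left _ _).trans (le_max_right _ _)).trans hk
        have hk3 : ⌈|y₀|⌉₊ ≤ k := ((le_max_right _ _).trans (le_max_right _ _)).trans hk
        have hy : |y₀| ≤ k := (Nat.le_ceil _).trans (by exact_mod_cast hk3)
        obtain ⟨y, hy1, hy2, hy3⟩ := hVd k (z α) (hz α) y₀ hy
        refine ⟨y, ?_, k, hk1, hkA, hy2, hy3⟩
        rw [Metric.mem_ball, Real.dist_eq]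
        have h4 : 1 / ((k : ℝ) + 1) ≤ 1 / ((M : ℝ) + 1) := by
          apply one_div_le_one_div_of_le (by positivity)
          have : (M : ℝ) ≤ k := by exact_mod_cast hk2
          linarith
        linarith) N
      refine ⟨k, hk, fun γ hγ => ?_⟩
      rcases Finset.mem_insert.1 hγ with rfl | hγ
      · exact h2
      · exact h1 γ hγ
  -- the countable part
  let C : Set X := {p | (∃ q : ℚ, (q : ℝ) = p) ∨ ∃ α, α ≤ β ∧ ((p : ℝ) = x α ∨ (p : ℝ) = z α - x α)}
  have hIic : (Set.Iic β).Countable := by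
    rw [← Set.Iio_insert]
    exact (hcount β).insert β
  have hCcount : C.Countable := by
    have h1 : (Subtype.val '' C).Countable := by
      refine ((Set.countable_range (fun q : ℚ => (q : ℝ))).union
        ((hIic.image x).union (hIic.image fun α => z α - x α))).mono ?_
      rintro _ ⟨p, (⟨q, hq⟩ | ⟨α, hα, h | h⟩), rfl⟩
      · exact Or.inl ⟨q, hq⟩
      · exact Or.inr (Or.inl ⟨α, hα, h.symm⟩)
      · exact Or.inr (Or.inr ⟨α, hα, h.symm⟩)
    exact Set.countable_of_injective_of_countable_image Subtype.val_injective.injOn h1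
  have hCne : C.Nonempty := ⟨⟨((0 : ℚ) : ℝ), hXq 0⟩, Or.inl ⟨0, rfl⟩⟩
  obtain ⟨c, hc⟩ := hCcount.exists_eq_range hCne
  let P : Set (Set X) := {W | ∃ k, W = a k ∨ W = b k}
  by_cases hcase : ∃ k, ¬ Om (𝒰 (3 * k + 2) \ P)
  · -- case A
    obtain ⟨k₀, hk₀⟩ := hcase
    have hP : Om P := (hOm _).sdiff_or hk₀
    have hd : ∀ k, ∃ W, W ∈ 𝒰 (3 * k + 2) := fun k => by
      obtain ⟨W, hW, -⟩ := hOm (3 * k + 2) ∅ Set.finite_empty
      exact ⟨W, hW⟩
    choose d hd using hd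
    let U : ℕ → Set X := fun n =>
      if n % 3 = 0 then a (n / 3) else if n % 3 = 1 then b (n / 3) else d (n / 3)
    have hU : ∀ n, U n ∈ 𝒰 n := by
      intro n
      simp only [U]
      split_ifs with h1 h2
      · have := ha𝒰 (n / 3)
        rwa [show 3 * (n / 3) = n by omega] at this
      · have := hb𝒰 (n / 3)
        rwa [show 3 * (n / 3) + 1 = n by omega] at this
      · have := hd (n / 3)
        rwa [show 3 * (n / 3) + 2 = n by omega] at this
    refine ⟨U, hU, groupable_singletons (fun n => hopen n _ (hU n)) fun F hF => ?_⟩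
    obtain ⟨W, ⟨k, hk⟩, hFW⟩ := hP F hF
    rcases hk with rfl | rfl
    · refine ⟨_, ⟨3 * k, rfl⟩, ?_⟩
      simp only [U]
      rw [if_pos (by omega), show 3 * k / 3 = k by omega]
      exact hFW
    · refine ⟨_, ⟨3 * k + 1, rfl⟩, ?_⟩
      simp only [U]
      rw [if_neg (by omega), if_pos (by omega), show (3 * k + 1) / 3 = k by omega]
      exact hFW
  · -- case B
    push Not at hcase
    obtain ⟨d, hd⟩ := exists_wf_seq (I := ℕ) (X := Set X)
      (fun k g W => (∀ j (hj : j < k), g j hj ≠ univ) →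
        W ∈ 𝒰 (3 * k + 2) ∧ W ∉ P ∧ (∀ j ≤ k, c j ∈ W) ∧ ∀ j (hj : j < k), W ≠ g j hj) (by
      intro k g
      by_cases hg : ∀ j (hj : j < k), g j hj ≠ univ
      · let 𝒬 : Set (Set X) := ⋃ j : Set.Iio k, {g j.1 j.2}
        have h𝒬 : 𝒬.Finite := Set.finite_iUnion fun j => Set.toFinite _
        have hne : ∀ V ∈ 𝒬, V ≠ univ := by
          intro V hV
          obtain ⟨j, hj⟩ := Set.mem_iUnion.1 hV
          rw [Set.mem_singleton_iff] at hj
          subst hj
          exact hg j.1 j.2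
        obtain ⟨W, hW, hcW, hW𝒬⟩ := (hcase k).exists_avoid (F := c '' Set.Iic k)
          ((Set.finite_Iic k).image c) h𝒬 hne
        refine ⟨W, fun _ => ⟨hW.1, hW.2, fun j hj => hcW ⟨j, hj, rfl⟩, fun j hj => ?_⟩⟩
        rintro rfl
        exact hW𝒬 (Set.mem_iUnion.2 ⟨⟨j, hj⟩, rfl⟩)
      · exact ⟨∅, fun h => absurd h hg⟩)
    have hdne : ∀ k, d k ≠ univ := by
      intro k
      induction k using Nat.strong_induction_on with
      | _ k ih =>
        obtain ⟨h1, -⟩ := hd k fun j hj => ih j hj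
        intro h; rw [h] at h1; exact huniv _ h1
    replace hd := fun k => hd k fun j _ => hdne j
    have had : ∀ j k, a j ≠ d k := fun j k e => (hd k).2.1 ⟨j, Or.inl e.symm⟩
    have hbd : ∀ j k, b j ≠ d k := fun j k e => (hd k).2.1 ⟨j, Or.inr e.symm⟩
    have hdd : ∀ j k, j ≠ k → d j ≠ d k := by
      intro j k hjk
      rcases lt_or_gt_of_ne hjk with h | h
      · exact fun e => (hd k).2.2.2 j h e.symm
      · exact (hd j).2.2.2 k h
    let U : ℕ → Set X := fun n =>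
      if n % 3 = 0 then a (n / 3) else if n % 3 = 1 then b (n / 3) else d (n / 3)
    have hU0 : ∀ k, U (3 * k) = a k := by
      intro k
      simp only [U]
      rw [if_pos (by omega), show 3 * k / 3 = k by omega]
    have hU1 : ∀ k, U (3 * k + 1) = b k := by
      intro k
      simp only [U]
      rw [if_neg (by omega), if_pos (by omega), show (3 * k + 1) / 3 = k by omega]
    have hU2 : ∀ k, U (3 * k + 2) = d k := by
      intro k
      simp only [U]
      rw [if_neg (by omega), if_neg (by omega), show (3 * k + 2) / 3 = k by omega]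
    have hU : ∀ n, U n ∈ 𝒰 n := by
      intro n
      simp only [U]
      split_ifs with h1 h2
      · have := ha𝒰 (n / 3)
        rwa [show 3 * (n / 3) = n by omega] at this
      · have := hb𝒰 (n / 3)
        rwa [show 3 * (n / 3) + 1 = n by omega] at this
      · have := (hd (n / 3)).1
        rwa [show 3 * (n / 3) + 2 = n by omega] at this
    have hopenU : ∀ n, IsOpen (U n) := fun n => hopen n _ (hU n)
    -- the key property
    have hkey : ∀ F : Set X, F.Finite → ∃ k, F ⊆ ⋃₀ {a k, b k, d k} := by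
      intro F hF
      have hlev : ∀ p : X, ∃ γ, p ∉ C → β < γ ∧ ((p : ℝ) = x γ ∨ (p : ℝ) = z γ - x γ) := by
        intro p
        by_cases hp : p ∈ C
        · exact ⟨β, fun h => absurd hp h⟩
        · rcases hX p p.2 with h | ⟨γ, hγ⟩
          · exact absurd (Or.inl h) hp
          · refine ⟨γ, fun _ => ⟨?_, hγ⟩⟩
            by_contra hcon
            exact hp (Or.inr ⟨γ, not_lt.1 hcon, hγ⟩)
      choose γ hγ using hlev
      lift F to Finset X using hF
      let A : Finset I := (F.filter fun p => p ∉ C).image γ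
      have hA : ∀ α ∈ A, β < α := by
        intro α hα
        obtain ⟨p, hp, rfl⟩ := Finset.mem_image.1 hα
        exact (hγ p (Finset.mem_filter.1 hp).2).1
      have hidx : ∀ p : X, ∃ j, p ∈ C → c j = p := by
        intro p
        by_cases hp : p ∈ C
        · rw [hc] at hp
          obtain ⟨j, hj⟩ := hp
          exact ⟨j, fun _ => hj⟩
        · exact ⟨0, fun h => absurd h hp⟩
      choose j hj using hidx
      obtain ⟨k, hk, hkA⟩ := hhigh A hA (F.sup j)
      refine ⟨k, fun p hp => ?_⟩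
      by_cases hpC : p ∈ C
      · refine ⟨d k, by simp, ?_⟩
        rw [← hj p hpC]
        exact (hd k).2.2.1 (j p) ((Finset.le_sup hp).trans hk)
      · have h1 := hkA (γ p) (Finset.mem_image.2 ⟨p, Finset.mem_filter.2 ⟨hp, hpC⟩, rfl⟩)
        have h2 : (p : ℝ) ∈ V k := by
          rcases (hγ p hpC).2 with h | h
          · rw [h]; exact h1.1
          · rw [h]; exact h1.2
        rcases h2 with h2 | h2
        · exact ⟨a k, by simp, mem_of_mem_ext h2⟩
        · exact ⟨b k, by simp, mem_of_mem_ext h2⟩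
    refine ⟨U, hU, ⟨?_, ?_⟩, fun k => {a k, b k, d k}, fun k => Set.toFinite _, ?_, ?_, ?_, hkey⟩
    · rintro _ ⟨n, rfl⟩; exact hopenU n
    · rw [Set.eq_univ_iff_forall]
      intro p
      obtain ⟨k, hk⟩ := hkey {p} (Set.finite_singleton p)
      obtain ⟨W, hW, hpW⟩ := hk (Set.mem_singleton p)
      refine ⟨W, ?_, hpW⟩
      rcases hW with rfl | rfl | rfl
      · exact ⟨3 * k, hU0 k⟩
      · exact ⟨3 * k + 1, hU1 k⟩
      · exact ⟨3 * k + 2, hU2 k⟩
    · intro m n hmn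
      rw [Set.disjoint_left]
      rintro W (rfl | rfl | rfl) (h | h | h)
      · exact haa m n hmn h
      · exact hab m n h
      · exact had m n h
      · exact hab n m h.symm
      · exact hbb m n hmn h
      · exact hbd m n h
      · exact had n m h.symm
      · exact hbd n m h.symm
      · exact hdd m n hmn h
    · ext W
      constructor
      · intro hW
        obtain ⟨k, hk⟩ := Set.mem_iUnion.1 hW
        rcases hk with rfl | rfl | rfl
        · exact ⟨3 * k, hU0 k⟩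
        · exact ⟨3 * k + 1, hU1 k⟩
        · exact ⟨3 * k + 2, hU2 k⟩
      · rintro ⟨n, rfl⟩
        rw [Set.mem_iUnion]
        refine ⟨n / 3, ?_⟩
        simp only [U]
        split_ifs with h1 h2
        · exact Or.inl rfl
        · exact Or.inr (Or.inl rfl)
        · exact Or.inr (Or.inr rfl)
    · intro k
      apply isOpen_sUnion
      rintro W (rfl | rfl | rfl)
      · exact hopen _ _ (ha𝒰 k)
      · exact hopen _ _ (hb𝒰 k)
      · exact hopen _ _ (hd k).1

/-- Under the continuum hypothesis there is a set of reals which satisfies `S₁(Ω, 𝒪^{ωgp})` but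
not `S₁(Ω, Ω)`. -/
theorem result (hCH : Cardinal.continuum.{0} = Cardinal.aleph 1) :
    ∃ X : Set ℝ, SOne X IsOmegaCover IsOmegaGroupable ∧ ¬ SOne X IsOmegaCover IsOmegaCover := by
  obtain ⟨I, _, z, x, hcount, hsurj, hz, hx⟩ := exists_points hCH
  refine ⟨{p | (∃ q : ℚ, (q : ℝ) = p) ∨ ∃ α, p = x α ∨ p = z α - x α},
    SOne_groupable hcount hz hx (fun q => Or.inl ⟨q, rfl⟩) fun p hp => hp, not_SOne fun r hr => ?_⟩
  obtain ⟨α, rfl⟩ := hsurj r hr
  exact ⟨x α, Or.inr ⟨α, Or.inl rfl⟩, z α - x α, Or.inr ⟨α, Or.inr rfl⟩, by ring⟩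

end Pool.Agent.Results.MP_82c070_gt.NotEquivalent
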